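import Mathlib

set_option autoImplicit false

open Set Filter Topology

namespace Pool.Agent.Results.MP_54f706_an.CircleCantorInfinite

/-- The set `E`: the unit circle intersected with `C × C`, where `C` is the middle-third Cantor
set. -/
def E : Set (ℝ × ℝ) := {p | p.1 ^ 2 + p.2 ^ 2 = 1 ∧ p.1 ∈ cantorSet ∧ p.2 ∈ cantorSet}

theorem div_three_mem {x : ℝ} (hx : x ∈ cantorSet) : x / 3 ∈ cantorSet := by
  rw [cantorSet_eq_union_halves]
  exact Or.inl ⟨x, hx, rfl⟩

theorem two_add_div_three_mem {x : ℝ} (hx : x ∈ cantorSet) : (2 + x) / 3 ∈ cantorSet := by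
  rw [cantorSet_eq_union_halves]
  exact Or.inr ⟨x, hx, rfl⟩

theorem div_pow_mem {x : ℝ} (hx : x ∈ cantorSet) (n : ℕ) : x / 3 ^ n ∈ cantorSet := by
  induction n with
  | zero => simpa using hx
  | succ n ih =>
    have h := div_three_mem ih
    rw [pow_succ, ← div_div]
    exact h

theorem one_sub_mem_pre (n : ℕ) : ∀ x ∈ preCantorSet n, 1 - x ∈ preCantorSet n := by
  induction n with
  | zero =>
    intro x hx
    simp only [preCantorSet_zero, mem_Icc] at hx ⊢
    constructor <;> linarith [hx.1, hx.2]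
  | succ n ih =>
    intro x hx
    rw [preCantorSet_succ] at hx ⊢
    rcases hx with ⟨y, hy, rfl⟩ | ⟨y, hy, rfl⟩
    · refine Or.inr ⟨1 - y, ih y hy, ?_⟩
      simp only
      ring
    · refine Or.inl ⟨1 - y, ih y hy, ?_⟩
      simp only
      ring

theorem one_sub_mem {x : ℝ} (hx : x ∈ cantorSet) : 1 - x ∈ cantorSet := by
  simp only [cantorSet, mem_iInter] at hx ⊢
  exact fun n => one_sub_mem_pre n x (hx n)

/-- the equation of the rescaled circle near `(0,1)` -/
noncomputable def G (ε x z : ℝ) : ℝ := 2 * z - ε * z ^ 2 - x ^ 2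

/-- a square `[a,a+s] × [b,b+s]` carrying a copy of `C × C`, crossed by the curve `G = 0` -/
structure Good (ε a b s : ℝ) : Prop where
  s_pos : 0 < s
  s_le : s ≤ 1 / 3
  memA : ∀ x ∈ cantorSet, a + s * x ∈ cantorSet
  memB : ∀ x ∈ cantorSet, b + s * x ∈ cantorSet
  a_ge : 2 / 3 ≤ a
  b_ge : 0 ≤ b
  b_le : b + s ≤ 1 / 3
  low : G ε (a + s) b ≤ 0
  high : 0 ≤ G ε a (b + s)

theorem mem_left {a s : ℝ} (h : ∀ x ∈ cantorSet, a + s * x ∈ cantorSet) :
    ∀ x ∈ cantorSet, a + s / 3 * x ∈ cantorSet := by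
  intro x hx
  have := h _ (div_three_mem hx)
  have e : a + s / 3 * x = a + s * (x / 3) := by ring
  rwa [e]

theorem mem_right {a s : ℝ} (h : ∀ x ∈ cantorSet, a + s * x ∈ cantorSet) :
    ∀ x ∈ cantorSet, a + 2 * s / 3 + s / 3 * x ∈ cantorSet := by
  intro x hx
  have := h _ (two_add_div_three_mem hx)
  have e : a + 2 * s / 3 + s / 3 * x = a + s * ((2 + x) / 3) := by ring
  rwa [e]

theorem good_step {ε a b s : ℝ} (h0 : 0 ≤ ε) (h1 : ε ≤ 1 / 81) (h : Good ε a b s) :
    ∃ a' b', Good ε a' b' (s / 3) := by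
  obtain ⟨hs, hs3, hA, hB, ha, hb, hb3, hlow, hhigh⟩ := h
  have ha2 : a ≤ 817 / 1000 := by
    unfold G at hhigh
    nlinarith [mul_nonneg h0 (sq_nonneg (b + s))]
  have hεb : ε * (2 * b + 5 * s / 3) ≤ 1 / 81 := by nlinarith
  have hεb' : ε * (2 * b + s / 3) ≤ 1 / 81 := by nlinarith
  have hεb0 : 0 ≤ ε * (2 * b + s) := by positivity
  -- the three overlaps
  have o1 : G ε (a + s / 3) (b + 2 * s / 3) ≤ G ε (a + 2 * s / 3) (b + s) := by
    have e : G ε (a + 2 * s / 3) (b + s) - G ε (a + s / 3) (b + 2 * s / 3) =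
        s / 3 * (2 - ε * (2 * b + 5 * s / 3) - 2 * a - s) := by
      unfold G; ring
    have : 0 ≤ s / 3 * (2 - ε * (2 * b + 5 * s / 3) - 2 * a - s) := by
      apply mul_nonneg (by linarith)
      linarith
    linarith
  have o2 : G ε (a + s) (b + 2 * s / 3) ≤ G ε a (b + s / 3) := by
    have e : G ε a (b + s / 3) - G ε (a + s) (b + 2 * s / 3) =
        s * (-2 / 3 + ε * (2 * b + s) / 3 + 2 * a + s) := by
      unfold G; ring
    have : 0 ≤ s * (-2 / 3 + ε * (2 * b + s) / 3 + 2 * a + s) := by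
      apply mul_nonneg hs.le
      linarith
    linarith
  have o3 : G ε (a + s / 3) b ≤ G ε (a + 2 * s / 3) (b + s / 3) := by
    have e : G ε (a + 2 * s / 3) (b + s / 3) - G ε (a + s / 3) b =
        s / 3 * (2 - ε * (2 * b + s / 3) - 2 * a - s) := by
      unfold G; ring
    have : 0 ≤ s / 3 * (2 - ε * (2 * b + s / 3) - 2 * a - s) := by
      apply mul_nonneg (by linarith)
      linarith
    linarith
  have r1 : a + 2 * s / 3 + s / 3 = a + s := by ring
  have r2 : b + 2 * s / 3 + s / 3 = b + s := by ring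
  by_cases c1 : G ε (a + s / 3) (b + 2 * s / 3) ≤ 0
  · -- upper left square
    refine ⟨a, b + 2 * s / 3, by linarith, by linarith, mem_left hA, mem_right hB, ha,
      by linarith, by linarith, c1, ?_⟩
    rw [r2]; exact hhigh
  push Not at c1
  by_cases c2 : G ε (a + s) (b + 2 * s / 3) ≤ 0
  · -- upper right square
    refine ⟨a + 2 * s / 3, b + 2 * s / 3, by linarith, by linarith, mem_right hA, mem_right hB,
      by linarith, by linarith, by linarith, ?_, ?_⟩
    · rw [r1]; exact c2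
    · rw [r2]; linarith
  push Not at c2
  by_cases c3 : G ε (a + s / 3) b ≤ 0
  · -- lower left square
    exact ⟨a, b, by linarith, by linarith, mem_left hA, mem_left hB, ha,
      by linarith, by linarith, c3, by linarith⟩
  push Not at c3
  -- lower right square
  refine ⟨a + 2 * s / 3, b, by linarith, by linarith, mem_right hA, mem_left hB,
      by linarith, by linarith, by linarith, ?_, by linarith⟩
  rw [r1]; exact hlow

theorem exists_good {ε : ℝ} (h0 : 0 ≤ ε) (h1 : ε ≤ 1 / 81) (k : ℕ) :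
    ∃ a b, Good ε a b ((1 / 3) ^ (k + 1)) := by
  induction k with
  | zero =>
    refine ⟨2 / 3, 0, by norm_num, by norm_num, ?_, ?_, by norm_num, by norm_num, by norm_num,
      ?_, ?_⟩
    · intro x hx
      have := two_add_div_three_mem hx
      have e : 2 / 3 + (1 / 3) ^ (0 + 1) * x = (2 + x) / 3 := by ring
      rwa [e]
    · intro x hx
      have := div_three_mem hx
      have e : 0 + (1 / 3) ^ (0 + 1) * x = x / 3 := by ring
      rwa [e]
    · unfold G; norm_num
    · unfold G; norm_num; linarith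
  | succ k ih =>
    obtain ⟨a, b, h⟩ := ih
    obtain ⟨a', b', h'⟩ := good_step h0 h1 h
    refine ⟨a', b', ?_⟩
    have e : ((1 : ℝ) / 3) ^ (k + 1 + 1) = (1 / 3) ^ (k + 1) / 3 := by ring
    rwa [e]

/-- For small `ε` the curve `x² = 2z - εz²` meets `C × C` in the square
`[2/3,1] × [0,1/3]`. -/
theorem exists_zero {ε : ℝ} (h0 : 0 ≤ ε) (h1 : ε ≤ 1 / 81) :
    ∃ x ∈ cantorSet, ∃ z ∈ cantorSet, 2 / 3 ≤ x ∧ x ≤ 1 ∧ G ε x z = 0 := by
  set K : Set (ℝ × ℝ) := (cantorSet ∩ Icc (2 / 3) 1) ×ˢ cantorSet with hK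
  have hKc : IsCompact K :=
    (isCompact_cantorSet.inter_right isClosed_Icc).prod isCompact_cantorSet
  have hKne : K.Nonempty := by
    refine ⟨(2 / 3, 0), ⟨?_, by norm_num, by norm_num⟩, zero_mem_cantorSet⟩
    have := two_add_div_three_mem zero_mem_cantorSet
    simpa using this
  have hcont : ContinuousOn (fun p : ℝ × ℝ => |G ε p.1 p.2|) K := by
    apply Continuous.continuousOn
    unfold G
    fun_prop
  obtain ⟨p, hp, hmin⟩ := hKc.exists_isMinOn hKne hcont
  refine ⟨p.1, hp.1.1, p.2, hp.2, hp.1.2.1, hp.1.2.2, ?_⟩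
  have hbound : ∀ k : ℕ, |G ε p.1 p.2| ≤ 6 * (1 / 3 : ℝ) ^ (k + 1) := by
    intro k
    obtain ⟨a, b, h⟩ := exists_good h0 h1 k
    obtain ⟨hs, hs3, hA, hB, ha, hb, hb3, hlow, hhigh⟩ := h
    set s : ℝ := (1 / 3 : ℝ) ^ (k + 1) with hs_def
    have haC : a ∈ cantorSet := by simpa using hA 0 zero_mem_cantorSet
    have hbC : b ∈ cantorSet := by simpa using hB 0 zero_mem_cantorSet
    have ha1 := (cantorSet_subset_unitInterval haC).2
    have hab : (a, b) ∈ K := ⟨⟨haC, ha, ha1⟩, hbC⟩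
    have h2 : |G ε p.1 p.2| ≤ |G ε a b| := hmin hab
    refine h2.trans ?_
    rw [abs_le]
    unfold G at hlow hhigh ⊢
    have hb13 : b ≤ 1 / 3 := by linarith
    constructor
    · nlinarith [mul_nonneg h0 hs.le, mul_nonneg (mul_nonneg h0 hs.le) hb,
        mul_nonneg h0 (sq_nonneg s)]
    · nlinarith [mul_nonneg h0 hs.le, mul_nonneg (mul_nonneg h0 hs.le) hb,
        mul_nonneg h0 (sq_nonneg s)]
  have htend : Tendsto (fun k : ℕ => 6 * (1 / 3 : ℝ) ^ (k + 1)) atTop (𝓝 (6 * 0)) := by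
    apply Tendsto.const_mul
    exact (tendsto_pow_atTop_nhds_zero_of_lt_one (by norm_num) (by norm_num)).comp
      (tendsto_add_atTop_nat 1)
  rw [mul_zero] at htend
  have hle : |G ε p.1 p.2| ≤ 0 := ge_of_tendsto' htend hbound
  exact abs_nonpos_iff.1 hle

/-- For every `n ≥ 2` the set `E` contains a point whose first coordinate lies in
`[2/3^(n+1), 1/3^n]`. -/
theorem exists_point (n : ℕ) (hn : 2 ≤ n) :
    ∃ p ∈ E, 2 / 3 ^ (n + 1) ≤ p.1 ∧ p.1 ≤ 1 / 3 ^ n := by
  have h9 : (1 / 9 : ℝ) ^ n ≤ 1 / 81 := by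
    calc (1 / 9 : ℝ) ^ n ≤ (1 / 9) ^ 2 := pow_le_pow_of_le_one (by norm_num) (by norm_num) hn
      _ = 1 / 81 := by norm_num
  obtain ⟨x, hx, z, hz, hx1, hx2, hG⟩ := exists_zero (ε := (1 / 9) ^ n) (by positivity) h9
  refine ⟨(x / 3 ^ n, 1 - z / 3 ^ (2 * n)), ⟨?_, div_pow_mem hx n, one_sub_mem (div_pow_mem hz _)⟩,
    ?_, ?_⟩
  · simp only
    unfold G at hG
    have e1 : (3 : ℝ) ^ (2 * n) = 9 ^ n := by rw [pow_mul]; norm_num
    have e2 : ((3 : ℝ) ^ n) ^ 2 = 9 ^ n := by rw [← pow_mul, mul_comm, pow_mul]; norm_num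
    have e3 : (1 / 9 : ℝ) ^ n = 1 / 9 ^ n := by rw [div_pow, one_pow]
    rw [e3] at hG
    have h9' : (0 : ℝ) < 9 ^ n := by positivity
    rw [e1, div_pow, e2]
    have e4 : x ^ 2 = 2 * z - 1 / 9 ^ n * z ^ 2 := by linarith
    rw [e4]
    field_simp
    ring
  · simp only
    rw [pow_succ, div_le_div_iff₀ (by positivity) (by positivity)]
    nlinarith [pow_pos (show (0:ℝ) < 3 by norm_num) n]
  · simp only
    gcongr

theorem swap_mem {p : ℝ × ℝ} (hp : p ∈ E) : (p.2, p.1) ∈ E :=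
  ⟨by simpa [add_comm] using hp.1, hp.2.2, hp.2.1⟩

/-- **The unit circle meets `C × C` in infinitely many points**, `C` the middle-third Cantor set.
More precisely, for every `n ≥ 2` there is a point of `E` with first coordinate in
`[2/3^(n+1), 1/3^n]` (and, by symmetry, one with second coordinate there), so both trivial points
`(0,1)` and `(1,0)` are accumulation points of `E`. -/
theorem result :
    E.Infinite ∧
    (∀ n : ℕ, 2 ≤ n → ∃ p ∈ E, 2 / 3 ^ (n + 1) ≤ p.1 ∧ p.1 ≤ 1 / 3 ^ n) ∧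
    AccPt ((0 : ℝ), (1 : ℝ)) (𝓟 E) ∧ AccPt ((1 : ℝ), (0 : ℝ)) (𝓟 E) := by
  have hacc : AccPt ((0 : ℝ), (1 : ℝ)) (𝓟 E) := by
    have hex : ∀ n : ℕ, ∃ p ∈ E, 2 / 3 ^ (n + 2 + 1) ≤ p.1 ∧ p.1 ≤ 1 / 3 ^ (n + 2) :=
      fun n => exists_point (n + 2) (by omega)
    choose p hpE hp1 hp2 using hex
    have hpos : ∀ n, 0 < (p n).1 := fun n => lt_of_lt_of_le (by positivity) (hp1 n)
    have hlim1 : Tendsto (fun n => (p n).1) atTop (𝓝 0) := by
      have h3 : Tendsto (fun n : ℕ => (1 : ℝ) / 3 ^ (n + 2)) atTop (𝓝 0) := by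
        have := (tendsto_pow_atTop_nhds_zero_of_lt_one (r := (1 / 3 : ℝ)) (by norm_num)
          (by norm_num)).comp (tendsto_add_atTop_nat 2)
        refine this.congr fun n => ?_
        simp [Function.comp]
      exact squeeze_zero (fun n => (hpos n).le) hp2 h3
    have hsnd : ∀ n, (p n).2 = Real.sqrt (1 - (p n).1 ^ 2) := by
      intro n
      have h := (hpE n).1
      have h0 := (cantorSet_subset_unitInterval (hpE n).2.2).1
      rw [← Real.sqrt_sq h0]
      congr 1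
      linarith
    have hlim2 : Tendsto (fun n => (p n).2) atTop (𝓝 1) := by
      have : Tendsto (fun n => Real.sqrt (1 - (p n).1 ^ 2)) atTop (𝓝 (Real.sqrt (1 - 0 ^ 2))) :=
        ((hlim1.pow 2).const_sub 1).sqrt
      rw [show Real.sqrt (1 - 0 ^ 2) = 1 by norm_num] at this
      exact this.congr fun n => (hsnd n).symm
    have hlim : Tendsto p atTop (𝓝 ((0 : ℝ), (1 : ℝ))) := by
      rw [nhds_prod_eq]
      exact hlim1.prodMk hlim2
    rw [accPt_iff_frequently]
    have hfr : ∃ᶠ n in atTop, p n ≠ ((0 : ℝ), (1 : ℝ)) ∧ p n ∈ E := by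
      apply Filter.Eventually.frequently
      refine Eventually.of_forall fun n => ⟨fun h => ?_, hpE n⟩
      have := hpos n
      rw [h] at this
      exact lt_irrefl _ this
    exact hlim.frequently hfr
  have hacc' : AccPt ((1 : ℝ), (0 : ℝ)) (𝓟 E) := by
    rw [accPt_iff_frequently] at hacc ⊢
    have hsw : Tendsto (Prod.swap : ℝ × ℝ → ℝ × ℝ) (𝓝 ((0 : ℝ), (1 : ℝ)))
        (𝓝 ((1 : ℝ), (0 : ℝ))) := by
      have := (continuous_swap : Continuous (Prod.swap : ℝ × ℝ → ℝ × ℝ)).tendsto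
        ((0 : ℝ), (1 : ℝ))
      simpa using this
    refine hsw.frequently (hacc.mono ?_)
    rintro q ⟨hq1, hq2⟩
    refine ⟨fun h => hq1 ?_, swap_mem hq2⟩
    have := congrArg Prod.swap h
    simpa using this
  exact ⟨Set.Infinite.of_accPt hacc, exists_point, hacc, hacc'⟩

end Pool.Agent.Results.MP_54f706_an.CircleCantorInfinite
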